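import Mathlib
import Pool.Agent.W5h83.HG.Prod
import Pool.Agent.W71.EC.Dil

/-!
# Small representatives of homotopy classes of families
-/

set_option autoImplicit false

open scoped ContDiff Topology

namespace Pool.Agent.U530.HG

open Pool.Agent.W71.EC Pool.Agent.W5h83.HG

variable {n : ℕ} {C : Type*} [TopologicalSpace C] [CompactSpace C]

theorem continuous_ta : Continuous ta := ta_smooth.continuous

theorem continuous_lp (l : ℝ) : Continuous (W71.EC.lp l) := by
  unfold W71.EC.lp
  exact continuous_const.sub (continuous_ta.mul continuous_const)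

theorem JC_affine {P : Type*} [TopologicalSpace P] {s : P → ℝ} (hs : Continuous s) {a : P → R2 n}
    (ha : Continuous a) (k : ℕ) : JC k (R2 n) (fun p (x : R2 n) => s p • (x + a p)) :=
  JC.smulP hs (JC.add (JC.ofSmooth contDiff_id k) (JC.constX ha k))

/-- the family of the conjugates by homotheties is jointly smooth -/
theorem JS_dil {f : C → SympCt n} (hf : Continuous f) (a : R2 n) {l : ℝ} (hl : 0 < l) :
    JS (fun z : C × ℝ => dil (f z.1) a l hl z.2) := by
  intro k
  have h1 : JC k (R2 n) (fun (z : C × ℝ) (x : R2 n) => (lp l z.2)⁻¹ • (x + -(ta z.2 • a))) :=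
    JC_affine (((continuous_lp l).comp continuous_snd).inv₀ fun z => (lp_pos hl z.2).ne')
      (((continuous_ta.comp continuous_snd).smul continuous_const).neg) k
  have h2 : JC k (R2 n) (fun (z : C × ℝ) (x : R2 n) => (f z.1).toEquiv x) :=
    JC.param (a := fun z : C × ℝ => z.1) continuous_fst (JS.of_continuous hf k)
  have h3 := JC.comp h2 h1
  have h4 : JC k (R2 n) (fun (z : C × ℝ) (x : R2 n) => lp l z.2 • (f z.1).toEquiv
      ((lp l z.2)⁻¹ • (x + -(ta z.2 • a)))) :=
    JC.smulP ((continuous_lp l).comp continuous_snd) h3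
  have h5 : JC k (R2 n) (fun (z : C × ℝ) (x : R2 n) => ta z.2 • a + lp l z.2 • (f z.1).toEquiv
      ((lp l z.2)⁻¹ • (x + -(ta z.2 • a)))) :=
    JC.add (JC.constX ((continuous_ta.comp continuous_snd).smul continuous_const) k) h4
  have h6 : (fun (z : C × ℝ) (x : R2 n) => (dil (f z.1) a l hl z.2).toEquiv x) =
      fun (z : C × ℝ) (x : R2 n) => ta z.2 • a + lp l z.2 • (f z.1).toEquiv
      ((lp l z.2)⁻¹ • (x + -(ta z.2 • a))) := by
    funext z x
    rw [← sub_eq_add_neg]
    rfl
  rw [h6]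
  exact h5

theorem dil_of_one (a : R2 n) {l : ℝ} (hl : 0 < l) (t : ℝ) : dil (one : SympCt n) a l hl t = one := by
  refine SympCt.ext' fun p => ?_
  rw [dil, conjH_apply]
  change ta t • a + lp l t • ((lp l t)⁻¹ • (p - ta t • a)) = p
  rw [smul_smul, mul_inv_cancel₀ (lp_pos hl t).ne', one_smul]
  abel

/-- **Small representatives.** -/
theorem exists_small_family (f : C(C, SympCt n)) (U : Set (R2 n)) (hU : IsOpen U)
    (hne : U.Nonempty) (ε : ℝ) (hε : 0 < ε) :
    ∃ g : C(C, SympCt n), f.HomotopicRel g {c | f c = one} ∧ (∀ c, g c ∈ supportedIn U) ∧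
      (∀ c x, ‖(g c).toEquiv x - x‖ ≤ ε) ∧
      ∀ c x, ∃ y, fderiv ℝ (g c).toEquiv x = fderiv ℝ (f c).toEquiv y := by
  obtain ⟨a, ha⟩ := hne
  obtain ⟨r', hr'⟩ := supp_unif (isCompact_range f.continuous)
  set r : ℝ := (r' : ℝ) with hrdef
  have hr : 0 ≤ r := Nat.cast_nonneg _
  have h : ∀ c, f c ∈ supportedIn (Metric.closedBall (0 : R2 n) r) := fun c => hr' _ ⟨c, rfl⟩
  obtain ⟨δ, hδ, hb⟩ := Metric.isOpen_iff.1 hU a ha
  obtain ⟨M, hM0, hM⟩ : ∃ M : ℝ, 0 ≤ M ∧ ∀ c x, ‖(f c).toEquiv x - x‖ ≤ M := by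
    have hcont : Continuous (fun z : C × R2 n => ‖(f z.1).toEquiv z.2 - z.2‖) := by
      have h1 : Continuous (fun z : C × R2 n => (f z.1).toEquiv z.2) :=
        JC.cont (JS.of_continuous f.continuous 0)
      exact (h1.sub continuous_snd).norm
    obtain ⟨M, hM⟩ := (isCompact_univ.prod (isCompact_closedBall (0 : R2 n) r)).bddAbove_image
      hcont.continuousOn
    refine ⟨max M 0, le_max_right _ _, fun c x => ?_⟩
    by_cases hx : x ∈ Metric.closedBall (0 : R2 n) r
    · exact (hM ⟨(c, x), ⟨trivial, hx⟩, rfl⟩).trans (le_max_left _ _)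
    · rw [h c x hx, sub_self, norm_zero]
      exact le_max_right _ _
  obtain ⟨l, hl, hl1, hl2, hl3⟩ : ∃ l : ℝ, 0 < l ∧ l ≤ 1 ∧ l * r < δ ∧ l * M ≤ ε := by
    refine ⟨min 1 (min (δ / (r + 1) / 2) (ε / (M + 1))), ?_, min_le_left _ _, ?_, ?_⟩
    · positivity
    · have h1 : min 1 (min (δ / (r + 1) / 2) (ε / (M + 1))) ≤ δ / (r + 1) / 2 :=
        (min_le_right _ _).trans (min_le_left _ _)
      have h2 : δ / (r + 1) / 2 * r < δ := by
        have h3 : δ / (r + 1) * r ≤ δ := by
          rw [div_mul_eq_mul_div, div_le_iff₀ (by positivity)]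
          nlinarith
        nlinarith
      exact lt_of_le_of_lt (mul_le_mul_of_nonneg_right h1 hr) h2
    · have h1 : min 1 (min (δ / (r + 1) / 2) (ε / (M + 1))) ≤ ε / (M + 1) :=
        (min_le_right _ _).trans (min_le_right _ _)
      have h2 : ε / (M + 1) * M ≤ ε := by
        rw [div_mul_eq_mul_div, div_le_iff₀ (by positivity)]
        nlinarith
      exact (mul_le_mul_of_nonneg_right h1 hM0).trans h2
  -- the homotopy
  have hJ : Continuous (fun z : unitInterval × C => dil (f z.2) a l hl (z.1 : ℝ)) := by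
    refine JS.continuous (f := fun z : unitInterval × C => dil (f z.2) a l hl (z.1 : ℝ)) (fun k => ?_)
      (Metric.closedBall (0 : R2 n) (‖a‖ + r)) (isCompact_closedBall _ _)
      (fun z => dil_supp hr (h z.2) a hl hl1 (z.1 : ℝ))
    exact JC.param (a := fun z : unitInterval × C => (z.2, (z.1 : ℝ)))
      (continuous_snd.prodMk (continuous_subtype_val.comp continuous_fst))
      (JS_dil f.continuous a hl k)
  have hg : Continuous (fun c => conjH (f c) a l hl.ne') := by
    have h1 := hJ.comp (continuous_const.prodMk continuous_id :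
      Continuous (fun c : C => ((1 : unitInterval), c)))
    have h2 : ((fun z : unitInterval × C => dil (f z.2) a l hl (z.1 : ℝ)) ∘
        fun c : C => ((1 : unitInterval), c)) = fun c => conjH (f c) a l hl.ne' := by
      funext c
      change dil (f c) a l hl ((1 : unitInterval) : ℝ) = _
      rw [Set.Icc.coe_one, dil_one]
    rwa [h2] at h1
  refine ⟨⟨fun c => conjH (f c) a l hl.ne', hg⟩, ⟨⟨⟨⟨fun z => dil (f z.2) a l hl (z.1 : ℝ), hJ⟩,
    fun c => ?_, fun c => ?_⟩, ?_⟩⟩, ?_, ?_, ?_⟩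
  · change dil (f c) a l hl ((0 : unitInterval) : ℝ) = f c
    rw [Set.Icc.coe_zero, dil_zero]
  · change dil (f c) a l hl ((1 : unitInterval) : ℝ) = conjH (f c) a l hl.ne'
    rw [Set.Icc.coe_one, dil_one]
  · intro t c hc
    change dil (f c) a l hl (t : ℝ) = f c
    have hc' : f c = one := hc
    rw [hc', dil_of_one]
  · intro c
    refine W71.EC.supp_mono (fun p hp => hb ?_) (conjH_supp (h c) a hl)
    rw [Metric.mem_ball]
    exact lt_of_le_of_lt (Metric.mem_closedBall.1 hp) hl2
  · intro c x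
    change ‖(conjH (f c) a l hl.ne').toEquiv x - x‖ ≤ ε
    rw [conjH_apply]
    have e1 : a + l • (f c).toEquiv (l⁻¹ • (x - a)) - x =
        l • ((f c).toEquiv (l⁻¹ • (x - a)) - l⁻¹ • (x - a)) := by
      have e2 : l • (l⁻¹ • (x - a)) = x - a := by
        rw [smul_smul, mul_inv_cancel₀ hl.ne', one_smul]
      rw [smul_sub l, e2]
      abel
    rw [e1, norm_smul, Real.norm_eq_abs, abs_of_pos hl]
    exact (mul_le_mul_of_nonneg_left (hM c _) hl.le).trans hl3
  · intro c x
    exact ⟨_, conj_fderiv (f c) a l hl.ne' x⟩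

end Pool.Agent.U530.HG
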