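import Mathlib
import Pool.Agent.U530.HG.Small
import Pool.Agent.W71.EC.Chain

/-!
# Commutativity up to homotopy; criteria with small supports
-/

set_option autoImplicit false

open scoped ContDiff Topology

namespace Pool.Agent.U530.HG

open Pool.Agent.W71.EC Pool.Agent.W5h83.HG

variable {n : ℕ} {C : Type*} [TopologicalSpace C] [CompactSpace C]

theorem mul_homotopic {f f' g g' : C(C, SympCt n)} {A : Set C} (h1 : f.HomotopicRel f' A)
    (h2 : g.HomotopicRel g' A) : (mulC f g).HomotopicRel (mulC f' g') A := by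
  obtain ⟨F⟩ := h1
  obtain ⟨G⟩ := h2
  refine ⟨⟨⟨⟨fun z => comp (F z) (G z), continuous_comp_family (C := unitInterval × C)
    F.toContinuousMap G.toContinuousMap⟩, fun c => ?_, fun c => ?_⟩, ?_⟩⟩
  · change comp (F (0, c)) (G (0, c)) = _
    rw [F.apply_zero, G.apply_zero]
    rfl
  · change comp (F (1, c)) (G (1, c)) = _
    rw [F.apply_one, G.apply_one]
    rfl
  · intro t c hc
    change comp (F (t, c)) (G (t, c)) = _
    rw [F.eq_fst t hc, G.eq_fst t hc]
    rfl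

/-- elements with disjoint supports commute -/
theorem comp_comm_of_disjoint {φ ψ : SympCt n} {K L : Set (R2 n)} (hφ : φ ∈ supportedIn K)
    (hψ : ψ ∈ supportedIn L) (hKL : ∀ x, x ∈ K → x ∉ L) : comp φ ψ = comp ψ φ := by
  have hmap : ∀ (θ : SympCt n) (K : Set (R2 n)), θ ∈ supportedIn K → ∀ x ∈ K,
      θ.toEquiv x ∈ K := by
    intro θ K hθ x hx
    by_contra h
    have h1 := hθ _ h
    have h2 := θ.toEquiv.injective h1
    rw [h2] at h
    exact h hx
  refine SympCt.ext' fun x => ?_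
  change φ.toEquiv (ψ.toEquiv x) = ψ.toEquiv (φ.toEquiv x)
  by_cases hx : x ∈ K
  · rw [hψ x (hKL x hx), hψ _ (hKL _ (hmap φ _ hφ x hx))]
  · rw [hφ x hx]
    by_cases hx' : x ∈ L
    · have h1 := hmap ψ _ hψ x hx'
      exact hφ _ fun h => hKL _ h h1
    · rw [hψ x hx', hφ x hx]

/-- **Families commute up to homotopy.** -/
theorem comm_family (f g : C(C, SympCt n)) :
    (mulC f g).HomotopicRel (mulC g f) {c | f c = one ∧ g c = one} := by
  rcases Nat.eq_zero_or_pos n with hn | hn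
  · subst hn
    have : mulC f g = mulC g f := by
      ext1 c
      exact SympCt.ext' fun p => Subsingleton.elim _ _
    rw [this]
    exact ContinuousMap.HomotopicRel.refl _
  have : Nonempty (Fin n) := ⟨⟨0, hn⟩⟩
  obtain ⟨a, ha⟩ := NormedSpace.exists_lt_norm ℝ (R2 n) 2
  obtain ⟨f', hf, hfU, -, -⟩ := exists_small_family f (Metric.ball 0 1) Metric.isOpen_ball
    ⟨0, Metric.mem_ball_self one_pos⟩ 1 one_pos
  obtain ⟨g', hg, hgV, -, -⟩ := exists_small_family g (Metric.ball a 1) Metric.isOpen_ball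
    ⟨a, Metric.mem_ball_self one_pos⟩ 1 one_pos
  have hdisj : ∀ x : R2 n, x ∈ Metric.ball (0 : R2 n) 1 → x ∉ Metric.ball a 1 := by
    intro x hx hx'
    rw [mem_ball_zero_iff] at hx
    rw [mem_ball_iff_norm] at hx'
    have : ‖a‖ ≤ ‖x‖ + ‖x - a‖ := by
      have := norm_sub_le x (x - a)
      rwa [sub_sub_cancel] at this
    linarith
  have hcomm : mulC f' g' = mulC g' f' := by
    ext1 c
    exact comp_comm_of_disjoint (hfU c) (hgV c) hdisj
  have mono : ∀ {p q : C(C, SympCt n)} {A B : Set C}, p.HomotopicRel q A → B ⊆ A →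
      p.HomotopicRel q B := by
    rintro p q A B ⟨H⟩ hBA
    exact ⟨⟨H.toHomotopy, fun t c hc => H.prop' t c (hBA hc)⟩⟩
  have hf' : f.HomotopicRel f' {c | f c = one ∧ g c = one} := mono hf fun c hc => hc.1
  have hg' : g.HomotopicRel g' {c | f c = one ∧ g c = one} := mono hg fun c hc => hc.2
  have h1 := mul_homotopic hf' hg'
  have h2 := mul_homotopic hg' hf'
  rw [hcomm] at h1
  exact h1.trans h2.symm

/-- finite products of elements without negative eigenvalues -/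
def IsProd (φ : SympCt n) : Prop :=
  ∃ l : List (SympCt n), (∀ θ ∈ l, NoNeg θ) ∧ φ = l.foldr comp one

/-- **Connectedness.** -/
theorem connected_tfae (n : ℕ) : List.TFAE [PathConnectedSpace (SympCt n),
    ∀ φ : SympCt n, IsProd φ,
    ∃ U : Set (R2 n), IsOpen U ∧ U.Nonempty ∧ ∃ ε : ℝ, 0 < ε ∧ ∀ φ : SympCt n,
      φ ∈ supportedIn U → (∀ x, ‖φ.toEquiv x - x‖ ≤ ε) → IsProd φ] := by
  tfae_have 1 → 2 := by
    intro h φ
    exact (joined_one_iff φ).1 (h.joined one φ)
  tfae_have 2 → 3 := by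
    intro h
    exact ⟨Set.univ, isOpen_univ, ⟨0, trivial⟩, 1, one_pos, fun φ _ _ => h φ⟩
  tfae_have 3 → 1 := by
    rintro ⟨U, hU, hne, ε, hε, h⟩
    have key : ∀ φ : SympCt n, Joined one φ := by
      intro φ
      obtain ⟨ψ, h1, h2, h3, -⟩ := exists_small φ U hU hne ε hε
      exact ((joined_one_iff ψ).2 (h ψ h2 h3)).trans h1.symm
    exact ⟨⟨one⟩, fun φ ψ => (key φ).symm.trans (key ψ)⟩
  tfae_finish

/-- products of families -/
def IsProdFam {C : Type*} [TopologicalSpace C] (A : Set C) (f : C(C, SympCt n)) : Prop :=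
  ∃ l : List C(C, SympCt n), (∀ θ ∈ l, (∀ c ∈ A, θ c = one) ∧ ∀ c, NoNeg (θ c)) ∧
    ∀ c, f c = (l.map fun θ => θ c).foldr comp one

/-- **Weak contractibility.** -/
theorem contractible_tfae (n : ℕ) : List.TFAE [
    ∀ k : ℕ, Subsingleton (HomotopyGroup (Fin k) (SympCt n) one),
    ∀ (k : ℕ) (f : C(Fin k → unitInterval, SympCt n)),
      (∀ y ∈ Cube.boundary (Fin k), f y = one) → IsProdFam (Cube.boundary (Fin k)) f,
    ∃ U : Set (R2 n), IsOpen U ∧ U.Nonempty ∧ ∃ ε : ℝ, 0 < ε ∧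
      ∀ (k : ℕ) (f : C(Fin k → unitInterval, SympCt n)),
        (∀ y ∈ Cube.boundary (Fin k), f y = one) → (∀ y, f y ∈ supportedIn U) →
        (∀ y x, ‖(f y).toEquiv x - x‖ ≤ ε) → IsProdFam (Cube.boundary (Fin k)) f] := by
  have hp : ∀ (k : ℕ) (f : C(Fin k → unitInterval, SympCt n)),
      f.HomotopicRel (ContinuousMap.const _ one) (Cube.boundary (Fin k)) ↔
        IsProdFam (Cube.boundary (Fin k)) f := fun k f =>
    homotopicRel_iff_prod _ f (ContinuousMap.const _ one)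
  tfae_have 1 → 2 := fun h => (weaklyContractible_iff n).1 h
  tfae_have 2 → 3 := fun h => ⟨Set.univ, isOpen_univ, ⟨0, trivial⟩, 1, one_pos,
    fun k f h1 _ _ => h k f h1⟩
  tfae_have 3 → 1 := by
    rintro ⟨U, hU, hne, ε, hε, h⟩
    refine (weaklyContractible_iff n).2 fun k f hf => (hp k f).1 ?_
    obtain ⟨g, h1, h2, h3, -⟩ := exists_small_family f U hU hne ε hε
    have h1' : f.HomotopicRel g (Cube.boundary (Fin k)) := by
      obtain ⟨H⟩ := h1
      exact ⟨⟨H.toHomotopy, fun t c hc => H.prop' t c (hf c hc)⟩⟩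
    have hg : ∀ y ∈ Cube.boundary (Fin k), g y = one := by
      intro y hy
      obtain ⟨H⟩ := h1'
      rw [← H.fst_eq_snd hy]
      exact hf y hy
    exact h1'.trans ((hp k g).2 (h k g hg h2 h3))
  tfae_finish

/-- the same with conjunctions -/
theorem connected_tfae' (n : ℕ) : List.TFAE [PathConnectedSpace (SympCt n),
    ∀ φ : SympCt n, IsProd φ,
    ∃ U : Set (R2 n), IsOpen U ∧ U.Nonempty ∧ ∃ ε : ℝ, 0 < ε ∧ ∀ φ : SympCt n,
      (φ ∈ supportedIn U ∧ ∀ x, ‖φ.toEquiv x - x‖ ≤ ε) → IsProd φ] := by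
  have h := connected_tfae n
  simp only [and_imp]
  exact h

theorem contractible_tfae' (n : ℕ) : List.TFAE [
    ∀ k : ℕ, Subsingleton (HomotopyGroup (Fin k) (SympCt n) one),
    ∀ (k : ℕ) (f : C(Fin k → unitInterval, SympCt n)),
      (∀ y ∈ Cube.boundary (Fin k), f y = one) → IsProdFam (Cube.boundary (Fin k)) f,
    ∃ U : Set (R2 n), IsOpen U ∧ U.Nonempty ∧ ∃ ε : ℝ, 0 < ε ∧
      ∀ (k : ℕ) (f : C(Fin k → unitInterval, SympCt n)),
        (∀ y ∈ Cube.boundary (Fin k), f y = one) →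
        (∀ y, f y ∈ supportedIn U ∧ ∀ x, ‖(f y).toEquiv x - x‖ ≤ ε) →
        IsProdFam (Cube.boundary (Fin k)) f] := by
  have h := contractible_tfae n
  have e : ∀ (U : Set (R2 n)) (ε : ℝ) (k : ℕ) (f : C(Fin k → unitInterval, SympCt n)),
      (∀ y, f y ∈ supportedIn U ∧ ∀ x, ‖(f y).toEquiv x - x‖ ≤ ε) ↔
      (∀ y, f y ∈ supportedIn U) ∧ (∀ y x, ‖(f y).toEquiv x - x‖ ≤ ε) :=
    fun _ _ _ _ => forall_and
  simp only [e, and_imp]
  exact h

end Pool.Agent.U530.HG
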